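import Pool.Agent.Lib.MP_ab8df0_nt.B.Auto2
import Pool.Agent.Lib.MP_ab8df0_nt.P.N0D

/-! Constants, proof tree and the result of the computation. -/

set_option maxRecDepth 100000

namespace Pool.Agent.Lib.MP_ab8df0_nt.T.B60a

open Pool.Agent.Lib.MP_ab8df0_nt.B Pool.Agent.Lib.MP_ab8df0_nt.P

def dl0 : List ℤ × ℕ := ([-1, 0, 2, 0, -1, 0, 1, 0, -2, 0, 1], 1)

def vs : Cs := [([0, 1], 1), ([], 1), ([], 1), ([], 1), 
  ([0, 0, 0, 0, 0, 1], 1),
  ([0, 1], 1),
  ([-1, 1], 1),
  ([1, 0, 0, 1], 1),
  ([1, 0, 0, 0, 0, 1], 1),
  ([1, 0, 0, 0, 0, 0, 0, 0, 0, 1], 1),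
  ([1, 0, 0, 0, 0, 2, -1, 0, 1, 0, 1, -1, 0, 1], 1),
  ([-1, 0, 1], 1),
  ([1, 0, -1, 0, 0, 0, -1, 0, 1], 1),
  ([1, 2, 0, 0, 0, 0, -1, 0, 0, 0, -1], 1),
  ([1, 0, 1], 1),
  ([1, 0, 0, 0, 0, 0, 0, 0, 0, 0, 1], 1),
  ([1, 0, 0, 0, 0, 0, 1], 1),
  ([0, 0, 0, 0, 0, 0, 0, 0, 0, 1], 2)]

def M (t0 : ℤ) (k0 : ℕ) : List Hyp := [
  .disc 1 t0 k0,
  .eq 2 (.add (.mul (.num 2) (.inv (.add (.num 1) (.mul (.var 1) (.var 4))))) (.neg (.num 1))),
  .pw 3 2 (.add (.num 1) (.mul (.num 3) (.sq (.var 2)))),
  .cls (.add (.var 3) (.neg (.num 1))) [5, 6, 7, 8, 9, 10, 11, 12, 13, 14, 15, 16],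
  .out (.add (.var 3) (.neg (.num 1))) [5, 6, 7, 8, 9, 10, 11, 12, 13, 14, 15, 16] [false, false, false, false, false, false, true, true, false, false, false, false]]

def k0 : Cut := ⟨[0], [], [[true, false, false, false, false, false, false, false, false, false, false, false, false]], [[false, true, false, false, false, false, false, false, false, false, false, false, false], [false, false, true, false, false, false, false, false, false, false, false, false, false], [false, false, false, false, false, true, false, false, false, false, false, false, false], [false, false, false, false, false, false, false, true, false, false, false, false, false], [false, false, false, false, false, false, false, false, false, false, true, false, false], [false, false, false, false, false, true, false, true, false, false, false, false, true], [false, false, true, true, false, false, false, false, false, false, false, false, false], [false, false, true, true, false, true, true, false, false, false, false, false, false], [false, false, false, false, false, true, true, true, true, false,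 false, false, false], [false, false, false, false, true, false, false, false, false, false, false, false, false], [false, false, false, false, false, false, false, false, false, false, false, true, false], [false, false, false, false, false, false, false, false, false, true, false, false, false]], [[true, false, false, false, false, false, false, false, false, false, false, false, false], [false, true, false, false, false, false, false, false, false, false, false, false, false], [false, false, true, false, false, false, false, false, false, false, false, false, false], [false, false, true, false, false, false, false, true, false, false, false, false, false], [false, false, false, false, false, false, false, false, false, false, true, false, false], [false, false, false, true, false, false, false, false, false, false, false, false, false], [false, false, false, true, false, false, false, true, true, false, false, false, false], [false, false, false, false, true, false, false, false, false, false, false, false, false], [false, false, false, false, true, false, false, true,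 true, true, false, false, false], [false, false, false, false, false, false, false, false, false, false, false, false, true], [false, false, false, false, false, true, false, false, false, false, false, false, false], [false, false, false, false, false, false, false, false, false, false, false, true, false], [false, false, false, true, true, false, true, false, false, false, false, false, false]]⟩

def A : List AH := [
  ]

theorem auto : (baseOk 3 vs && A.all (AH.ok FDN0 3 vs)) = true := by decide +kernel

def r0_0 : Tree := .set 4 [[]] (.set 5 [[]] (.set 6 [[]] (.set 7 [[]] (.set 8 [[]] (.set 9 [[]] (.set 10 [[]] (.set 11 [[]] (.set 12 [[]] (.set 13 [[]] (.set 14 [[]] (.set 15 [[]] (.set 16 [[]] (.piv [5, 6, 7, 8, 9, 10, 11, 12, 13, 14, 15, 16] [[ce 0 136 1 0 0x0], [ce 0 136 1 1 0x1], [ce 0 136 1 1 0x1], [ce 0 136 1 1 0x1], [ce 0 136 1 1 0x1], [ce 0 136 5 15 0x64e950010ee4e9a8005], [ce 0 136 5 15 0x2eabaaeabaaeabaaeab], [ce 0 136 5 15 0x603147de84944c34fff], [ce 0 136 5 15 0x21567e915c5fa06b395], [ce 0 136 5 15 0x5539ccae6296a30aef3], [ce 0 136 5 11 0x8000022000009],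 [ce 0 136 5 13 0x60010007c002800d]] (.disc 18 (.split 18 (.split 18 (.set 19 [[ce 0 136 1 1 0x1]] (.oroot 20 [[]] [(ce 0 136 1 7 0x40, ce (-2) 136 1 1 0x1)] (.conc 21 23 22 [[]] [ce 0 136 5 15 0x375336b460681901cd9]))) (.set 19 [[ce 0 136 5 11 0x1000003c000011]] (.oroot 20 [[]] [(ce 0 136 5 12 0x900000440000000, ce (-2) 136 5 11 0x7000000c000001)] (.dead 21 23 [[]] [false, false, false, false, false, false, true, true, false, false, false, false] [ce 0 136 5 15 0x436f930424798530497])))) (.set 19 [[ce 0 136 4 11 0xb000050000b]] (.oroot 20 [[]] [(ce 0 136 4 12 0x700003000080, ce (-2) 136 1 11 0x421)] (.dead 21 23 [[]] [false, false, false, false, false, true, false, false, false, false, false, false] [ce 0 136 4 15 0x8b43a7bc5732ca9]))))))))))))))))))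

theorem r0 : run FDN0.ds FDN0.es [[]] vs.length (fullH 3 vs (M 0 0) A) r0_0 = true := by
  decide +kernel

theorem relth {K : Type} [Field K] [NumberField K] {a : K} {pl : List (Place K)} {ph : List (K →+* ℝ)}
    {w : List (IsDedekindDomain.HeightOneSpectrum (NumberField.RingOfIntegers K))}
    (hP : Pack K FDN0 a pl ph w) : (cval a vs 4 * ((cval a vs 4) ^ 2)) = 2 := by
  have h : ((cval a vs 4 * ((cval a vs 4) ^ 2)) + (-(((2 : ℤ) : K)))) = 0 :=
    hP.rel vs (.add (.mul (.var 4) (.sq (.var 4))) (.neg (.num 2))) (by decide +kernel)
  have h0 : cval a vs 0 = a := by simp [cval, vs, ev]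
  try rw [h0] at h
  try push_cast at h
  linear_combination h

theorem relbe {K : Type} [Field K] [NumberField K] {a : K} {pl : List (Place K)} {ph : List (K →+* ℝ)}
    {w : List (IsDedekindDomain.HeightOneSpectrum (NumberField.RingOfIntegers K))}
    (hP : Pack K FDN0 a pl ph w) : (4 * (cval a vs 17 * ((((cval a vs 17) ^ 2)) ^ 2))) = 1 := by
  have h : ((((4 : ℤ) : K) * (cval a vs 17 * ((((cval a vs 17) ^ 2)) ^ 2))) + (-(((1 : ℤ) : K)))) = 0 :=
    hP.rel vs (.add (.mul (.num 4) (.mul (.var 17) (.sq (.sq (.var 17))))) (.neg (.num 1))) (by decide +kernel)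
  have h0 : cval a vs 0 = a := by simp [cval, vs, ev]
  try rw [h0] at h
  try push_cast at h
  linear_combination h

theorem core {K : Type} [Field K] [NumberField K] {a : K} {pl : List (Place K)} {ph : List (K →+* ℝ)}
    {w : List (IsDedekindDomain.HeightOneSpectrum (NumberField.RingOfIntegers K))}
    (hP : Pack K FDN0 a pl ph w) {G : Prop} (t g X : K)
    (hdisc : Q2 0 (t - ((0 : ℤ) : K)))
    (hG : g = ((2 * ((1 + (t * cval a vs 4)))⁻¹) - 1))
    (hX : X ^ 5 = (1 + (3 * ((g) ^ 2))))
    (hcls : ∀ v : IsDedekindDomain.HeightOneSpectrum (NumberField.RingOfIntegers K), ((30 : ℕ) : NumberField.RingOfIntegers K) ∉ v.asIdeal →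
      ∃ k : ℤ, v.valuation K (X - 1) = WithZero.exp (2 * k))
    (hclsre : ∀ i ∈ [0], ∀ φ, ph[i]? = some φ → 0 < φ (X - 1))
    (hout0 : IsSquare ((X - 1) * (ev a dl0.1 / (dl0.2 : K))) → G) :
    G := by
  refine hP.cover (fr := [t, g, X]) (M := M) (cs := [[]]) rfl auto
    (l := [(0, 0)]) (by decide) ?_ hdisc fun tt kk hq => ?_
  · exact List.forall_mem_cons.2 ⟨⟨_, r0⟩, fun _ h => absurd h List.not_mem_nil⟩
  · refine List.forall_mem_cons.2 ⟨?_, List.forall_mem_cons.2 ⟨?_, List.forall_mem_cons.2 ⟨?_, List.forall_mem_cons.2 ⟨?_, List.forall_mem_cons.2 ⟨?_, fun _ h => absurd h List.not_mem_nil⟩⟩⟩⟩⟩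
    · exact hq
    · show g = ((((2 : ℤ) : K) * ((((1 : ℤ) : K) + (t * cval a vs 4)))⁻¹) + (-(((1 : ℤ) : K))))
      try push_cast
      linear_combination hG
    · show X ^ 5 = (((1 : ℤ) : K) + (((3 : ℤ) : K) * ((g) ^ 2)))
      try push_cast
      linear_combination hX
    · exact fun h0 => hP.span_cut (nf := 3) (vs := vs) (x := (X + (-(((1 : ℤ) : K))))) (fr := [t, g, X]) rfl k0 (by decide +kernel) h0 ((by push_cast; ring : (X + (-(((1 : ℤ) : K)))) = (X - 1)) ▸ hcls) ((by push_cast; ring : (X + (-(((1 : ℤ) : K)))) = (X - 1)) ▸ hclsre) (fun _ h => absurd h List.not_mem_nil)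
    · exact fun h0 => hout0 ((by push_cast; ring : (X + (-(((1 : ℤ) : K)))) = (X - 1)) ▸ hP.out (nf := 3) (vs := vs) (x := (X + (-(((1 : ℤ) : K))))) (fr := [t, g, X]) rfl dl0 ([1], 1) (by decide +kernel) h0)

end Pool.Agent.Lib.MP_ab8df0_nt.T.B60a
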